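import Pool.Agent.W355.FR.Stm

/-! Project FR (owner helper355): coprime pairs in one class modulo `p²`. -/

set_option autoImplicit false

namespace Pool.Agent.W797.FR

open Pool.Agent.W355.FR

theorem mem_box' {H : ℕ} {x : ℤ × ℤ} (hx : x ∈ box H) :
    -(H : ℤ) ≤ x.1 ∧ x.1 ≤ H ∧ -(H : ℤ) ≤ x.2 ∧ x.2 ≤ H ∧ Int.gcd x.1 x.2 = 1 := by
  unfold box at hx
  rw [Finset.mem_filter, Finset.mem_product, Finset.mem_Icc, Finset.mem_Icc] at hx
  tauto

theorem cl1 (H p : ℕ) (r : ℤ) (hp : p.Prime) :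
    ((box H).filter (fun x => (p : ℤ) ^ 2 ∣ x.1 - r * x.2)).card ≤
      (2 * H + 1) * (2 * H / p ^ 2 + 1) := by
  have hm : (0 : ℤ) < (p : ℤ) ^ 2 := by
    have := hp.pos
    positivity
  have h1 : ((box H).filter (fun x => (p : ℤ) ^ 2 ∣ x.1 - r * x.2)).card ≤
      ((Finset.Icc (-(H : ℤ)) H) ×ˢ (Finset.Icc (0 : ℤ) ((2 * H) / (p : ℤ) ^ 2))).card := by
    apply Finset.card_le_card_of_injOn (fun x : ℤ × ℤ => (x.2, (x.1 + H) / (p : ℤ) ^ 2))
    · intro x hx
      rw [Finset.mem_coe, Finset.mem_filter] at hx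
      obtain ⟨h1, h2, h3, h4, h5⟩ := mem_box' hx.1
      rw [Finset.mem_coe, Finset.mem_product, Finset.mem_Icc, Finset.mem_Icc]
      refine ⟨⟨h3, h4⟩, Int.ediv_nonneg (by linarith) hm.le, ?_⟩
      exact Int.ediv_le_ediv hm (by linarith)
    · intro x hx y hy hxy
      rw [Finset.mem_coe, Finset.mem_filter] at hx hy
      simp only [Prod.mk.injEq] at hxy
      obtain ⟨e1, e2⟩ := hxy
      have hd : (p : ℤ) ^ 2 ∣ x.1 - y.1 := by
        have h3 := dvd_sub hx.2 hy.2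
        rw [e1] at h3
        have h4 : x.1 - r * y.2 - (y.1 - r * y.2) = x.1 - y.1 := by ring
        rwa [h4] at h3
      have h5 : (x.1 + H) % (p : ℤ) ^ 2 = (y.1 + H) % (p : ℤ) ^ 2 := by
        apply Int.emod_emod_of_dvd _ (dvd_refl _) |>.symm.trans
        rw [Int.emod_emod_of_dvd _ (dvd_refl _)]
        apply Int.ModEq.symm
        rw [Int.modEq_iff_dvd]
        have h6 : x.1 + (H : ℤ) - (y.1 + H) = x.1 - y.1 := by ring
        rw [h6]
        exact hd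
      have h7 := Int.mul_ediv_add_emod (x.1 + H) ((p : ℤ) ^ 2)
      have h8 := Int.mul_ediv_add_emod (y.1 + H) ((p : ℤ) ^ 2)
      have h9 : x.1 = y.1 := by
        rw [e2, h5] at h7
        linarith
      exact Prod.ext h9 e1
  refine h1.trans (le_of_eq ?_)
  rw [Finset.card_product, Int.card_Icc, Int.card_Icc]
  have h2 : ((2 * (H : ℤ)) / (p : ℤ) ^ 2) = ((2 * H / p ^ 2 : ℕ) : ℤ) := by push_cast; rfl
  rw [h2]
  have h3 : ((H : ℤ) + 1 - -(H : ℤ)).toNat = 2 * H + 1 := by omega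
  have h4 : (((2 * H / p ^ 2 : ℕ) : ℤ) + 1 - 0).toNat = 2 * H / p ^ 2 + 1 := by
    generalize 2 * H / p ^ 2 = q
    omega
  rw [h3, h4]

theorem cl2 (H p : ℕ) (r : ℤ) (hlt : 2 * H ^ 2 < p ^ 2) :
    ((box H).filter (fun x => (p : ℤ) ^ 2 ∣ x.1 - r * x.2)).card ≤ 2 := by
  rcases Finset.eq_empty_or_nonempty
    ((box H).filter (fun x => (p : ℤ) ^ 2 ∣ x.1 - r * x.2)) with h0 | ⟨x, hx⟩
  · rw [h0]; simp
  · have hsub : ((box H).filter (fun x => (p : ℤ) ^ 2 ∣ x.1 - r * x.2)) ⊆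
        ({x, -x} : Finset (ℤ × ℤ)) := by
      intro y hy
      rw [Finset.mem_filter] at hx hy
      obtain ⟨a1, a2, a3, a4, a5⟩ := mem_box' hx.1
      obtain ⟨b1, b2, b3, b4, b5⟩ := mem_box' hy.1
      have hd : (p : ℤ) ^ 2 ∣ x.1 * y.2 - y.1 * x.2 := by
        have h3 := dvd_sub (hx.2.mul_right y.2) (hy.2.mul_right x.2)
        have h4 : (x.1 - r * x.2) * y.2 - (y.1 - r * y.2) * x.2 = x.1 * y.2 - y.1 * x.2 := by ring
        rwa [h4] at h3
      have habs : |x.1 * y.2 - y.1 * x.2| < (p : ℤ) ^ 2 := by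
        have c1 : |x.1 * y.2| ≤ (H : ℤ) ^ 2 := by
          rw [abs_mul, pow_two]
          exact mul_le_mul (abs_le.2 ⟨a1, a2⟩) (abs_le.2 ⟨b3, b4⟩) (abs_nonneg _) (by positivity)
        have c2 : |y.1 * x.2| ≤ (H : ℤ) ^ 2 := by
          rw [abs_mul, pow_two]
          exact mul_le_mul (abs_le.2 ⟨b1, b2⟩) (abs_le.2 ⟨a3, a4⟩) (abs_nonneg _) (by positivity)
        have c3 : (2 : ℤ) * (H : ℤ) ^ 2 < (p : ℤ) ^ 2 := by exact_mod_cast hlt
        have c4 := abs_sub (x.1 * y.2) (y.1 * x.2)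
        linarith
      have hz : x.1 * y.2 - y.1 * x.2 = 0 := Int.eq_zero_of_abs_lt_dvd hd habs
      obtain ⟨u, v, huv⟩ := Int.isCoprime_iff_gcd_eq_one.2 a5
      obtain ⟨u', v', huv'⟩ := Int.isCoprime_iff_gcd_eq_one.2 b5
      obtain ⟨k, hk⟩ : ∃ k : ℤ, k = u * y.1 + v * y.2 := ⟨_, rfl⟩
      have e1 : y.1 = k * x.1 := by
        rw [hk]
        linear_combination (-y.1) * huv - v * hz
      have e2 : y.2 = k * x.2 := by
        rw [hk]
        linear_combination (-y.2) * huv + u * hz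
      have hku : IsUnit k := by
        refine IsUnit.of_mul_eq_one (u' * x.1 + v' * x.2) ?_
        rw [e1, e2] at huv'
        linear_combination huv'
      rw [Finset.mem_insert, Finset.mem_singleton]
      rcases Int.isUnit_iff.1 hku with h | h
      · left
        rw [h, one_mul] at e1 e2
        exact Prod.ext e1 e2
      · right
        rw [h] at e1 e2
        refine Prod.ext ?_ ?_
        · rw [e1]; simp
        · rw [e2]; simp
    exact (Finset.card_le_card hsub).trans Finset.card_le_two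

theorem cl : P_CL := by
  intro H p r hp
  refine ⟨?_, fun h => cl2 H p r h⟩
  have h1 := cl1 H p r hp
  have h2 : (((box H).filter (fun x => (p : ℤ) ^ 2 ∣ x.1 - r * x.2)).card : ℝ) ≤
      (((2 * H + 1) * (2 * H / p ^ 2 + 1) : ℕ) : ℝ) := by exact_mod_cast h1
  refine h2.trans ?_
  have h3 : ((2 * H / p ^ 2 : ℕ) : ℝ) ≤ 2 * H / (p : ℝ) ^ 2 := by
    refine Nat.cast_div_le.trans ?_
    push_cast
    exact le_rfl
  rw [Nat.cast_mul, Nat.cast_add, Nat.cast_add]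
  push_cast at h3 ⊢
  gcongr

end Pool.Agent.W797.FR
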